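import Pool.Agent.helper70.LE.SpecN

set_option autoImplicit false

namespace Pool.Agent.LE

open Pool.Agent.helper58.DC Pool.Agent.DI Pool.Agent.GR Pool.Agent.OB Pool.Agent.DR Pool.Agent.FI Pool.Agent.FI3 Pool.Agent.FI4

/-- the elements of `T` which commute with `a` modulo `C` -/
def OQS_S {G : Type} [Group G] (C T : Subgroup G) (hn : ∀ t ∈ T, ∀ c ∈ C, t * c * t⁻¹ ∈ C) (a : G) (_ha : a ∈ T) :
    Subgroup G where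
  carrier := {y | y ∈ T ∧ a * y * a⁻¹ * y⁻¹ ∈ C}
  one_mem' := ⟨T.one_mem, by
    have h : a * 1 * a⁻¹ * (1 : G)⁻¹ = 1 := by group
    rw [h]
    exact C.one_mem⟩
  mul_mem' := by
    rintro y y' ⟨h1, h2⟩ ⟨h3, h4⟩
    refine ⟨T.mul_mem h1 h3, ?_⟩
    have h : a * (y * y') * a⁻¹ * (y * y')⁻¹ = (a * y * a⁻¹ * y⁻¹) * (y * (a * y' * a⁻¹ * y'⁻¹) * y⁻¹) := by group
    rw [h]
    exact C.mul_mem h2 (hn y h1 _ h4)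
  inv_mem' := by
    rintro y ⟨h1, h2⟩
    refine ⟨T.inv_mem h1, ?_⟩
    have h : a * y⁻¹ * a⁻¹ * y⁻¹⁻¹ = y⁻¹ * (a * y * a⁻¹ * y⁻¹)⁻¹ * y⁻¹⁻¹ := by group
    rw [h]
    exact hn _ (T.inv_mem h1) _ (C.inv_mem h2)

theorem OQS_symm {G : Type} [Group G] {C : Subgroup G} {a y : G} (h : a * y * a⁻¹ * y⁻¹ ∈ C) :
    y * a * y⁻¹ * a⁻¹ ∈ C := by
  have h1 : y * a * y⁻¹ * a⁻¹ = (a * y * a⁻¹ * y⁻¹)⁻¹ := by group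
  rw [h1]
  exact C.inv_mem h

theorem OQS_mul {G : Type} [Group G] {C T : Subgroup G} (hn : ∀ t ∈ T, ∀ c ∈ C, t * c * t⁻¹ ∈ C) {a y y' : G}
    (ha : a ∈ T) (hy : y ∈ T) (hy' : y' ∈ T) (h : a * y * a⁻¹ * y⁻¹ ∈ C) (h' : a * y' * a⁻¹ * y'⁻¹ ∈ C) :
    a * (y * y') * a⁻¹ * (y * y')⁻¹ ∈ C :=
  ((OQS_S C T hn a ha).mul_mem (⟨hy, h⟩ : y ∈ OQS_S C T hn a ha) ⟨hy', h'⟩).2

theorem OQS_zpow {G : Type} [Group G] {C T : Subgroup G} (hn : ∀ t ∈ T, ∀ c ∈ C, t * c * t⁻¹ ∈ C) {a y : G}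
    (ha : a ∈ T) (hy : y ∈ T) (h : a * y * a⁻¹ * y⁻¹ ∈ C) (j : ℤ) :
    a * y ^ j * a⁻¹ * (y ^ j)⁻¹ ∈ C :=
  ((OQS_S C T hn a ha).zpow_mem (⟨hy, h⟩ : y ∈ OQS_S C T hn a ha) j).2

theorem OQS_abs {G : Type} [Group G] (C T : Subgroup G) (hn : ∀ t ∈ T, ∀ c ∈ C, t * c * t⁻¹ ∈ C) (ω : G → G → ℂ)
    (h1 : ∀ a ∈ T, ∀ y ∈ T, ∀ y' ∈ T, a * y * a⁻¹ * y⁻¹ ∈ C → a * y' * a⁻¹ * y'⁻¹ ∈ C → ω a (y * y') = ω a y * ω a y')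
    (h2 : ∀ a ∈ T, ω a a = 1) (h3 : ∀ a ∈ T, ω a 1 = 1)
    (h4 : ∀ a ∈ T, ∀ y ∈ T, a * y * a⁻¹ * y⁻¹ ∈ C → ω a y = (starRingEnd ℂ) (ω y a))
    (g k₁ k₂ : G) (hg : g ∈ T) (hk₁ : k₁ ∈ T) (hk₂ : k₂ ∈ T) (c1 : g * k₁ * g⁻¹ * k₁⁻¹ ∈ C)
    (c2 : g * k₂ * g⁻¹ * k₂⁻¹ ∈ C) (c3 : k₁ * k₂ * k₁⁻¹ * k₂⁻¹ ∈ C) (i j : ℤ) :
    ω (g ^ i * k₁) (g ^ j * k₂) = (starRingEnd ℂ) (ω k₂ (g ^ i)) * (ω k₁ (g ^ j) * ω k₁ k₂) := by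
  have hm : ∀ a ∈ T, ∀ a' ∈ T, ∀ y ∈ T, a * y * a⁻¹ * y⁻¹ ∈ C → a' * y * a'⁻¹ * y⁻¹ ∈ C →
      ω (a * a') y = ω a y * ω a' y := by
    intro a ha a' ha' y hy e1 e2
    have e3 : y * (a * a') * y⁻¹ * (a * a')⁻¹ ∈ C := OQS_mul hn hy ha ha' (OQS_symm e1) (OQS_symm e2)
    rw [h4 (a * a') (T.mul_mem ha ha') y hy (OQS_symm e3), h1 y hy a ha a' ha' (OQS_symm e1) (OQS_symm e2), map_mul,
      ← h4 a ha y hy e1, ← h4 a' ha' y hy e2]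
  have hp : ∀ a ∈ T, ∀ y ∈ T, a * y * a⁻¹ * y⁻¹ ∈ C → ω a y = 1 → ∀ n : ℕ, ω a (y ^ n) = 1 := by
    intro a ha y hy e1 e2 n
    induction n with
    | zero => rw [pow_zero]; exact h3 a ha
    | succ n ih =>
      have e3 := OQS_zpow hn ha hy e1 n
      rw [zpow_natCast] at e3
      rw [pow_succ, h1 a ha (y ^ n) (T.pow_mem hy n) y hy e3 e1, ih, e2, one_mul]
  have hz : ∀ a ∈ T, ∀ y ∈ T, a * y * a⁻¹ * y⁻¹ ∈ C → ω a y = 1 → ∀ j : ℤ, ω a (y ^ j) = 1 := by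
    intro a ha y hy e1 e2 j
    cases j with
    | ofNat n => rw [Int.ofNat_eq_natCast, zpow_natCast]; exact hp a ha y hy e1 e2 n
    | negSucc n =>
      have e3 := OQS_zpow hn ha hy e1 ((n + 1 : ℕ) : ℤ)
      have e4 := OQS_zpow hn ha hy e1 (-((n + 1 : ℕ) : ℤ))
      rw [zpow_natCast] at e3
      rw [zpow_neg, zpow_natCast] at e4
      rw [zpow_negSucc]
      have e5 := h1 a ha (y ^ (n + 1)) (T.pow_mem hy _) (y ^ (n + 1))⁻¹ (T.inv_mem (T.pow_mem hy _)) e3 e4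
      rw [mul_inv_cancel, h3 a ha, hp a ha y hy e1 e2 (n + 1), one_mul] at e5
      exact e5.symm
  have hcc : ∀ i j : ℤ, g ^ i * g ^ j * (g ^ i)⁻¹ * (g ^ j)⁻¹ ∈ C := by
    intro i j
    have e : g ^ i * g ^ j * (g ^ i)⁻¹ * (g ^ j)⁻¹ = 1 := by
      rw [← zpow_add, add_comm, zpow_add, mul_assoc (g ^ j), mul_inv_cancel, mul_one, mul_inv_cancel]
    rw [e]
    exact C.one_mem
  have hcg : ∀ i : ℤ, g ^ i * g * (g ^ i)⁻¹ * g⁻¹ ∈ C := by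
    intro i
    have := hcc i 1
    rwa [zpow_one] at this
  have hgg : ∀ i j : ℤ, ω (g ^ i) (g ^ j) = 1 := by
    intro i j
    have e0 : g * g * g⁻¹ * g⁻¹ ∈ C := by
      have := hcg 1
      rwa [zpow_one] at this
    have e1 := hz g hg g hg e0 (h2 g hg) i
    have e2 : ω (g ^ i) g = 1 := by
      rw [h4 (g ^ i) (T.zpow_mem hg i) g hg (hcg i), e1, map_one]
    exact hz (g ^ i) (T.zpow_mem hg i) g hg (hcg i) e2 j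
  have hgi := T.zpow_mem hg i
  have hgj := T.zpow_mem hg j
  have d1 : k₁ * g ^ j * k₁⁻¹ * (g ^ j)⁻¹ ∈ C := OQS_zpow hn hk₁ hg (OQS_symm c1) j
  have d2 : k₂ * g ^ i * k₂⁻¹ * (g ^ i)⁻¹ ∈ C := OQS_zpow hn hk₂ hg (OQS_symm c2) i
  have d3 : k₁ * (g ^ j * k₂) * k₁⁻¹ * (g ^ j * k₂)⁻¹ ∈ C := OQS_mul hn hk₁ hgj hk₂ d1 c3
  have d4 : g ^ i * (g ^ j * k₂) * (g ^ i)⁻¹ * (g ^ j * k₂)⁻¹ ∈ C := OQS_mul hn hgi hgj hk₂ (hcc i j) (OQS_symm d2)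
  rw [hm (g ^ i) hgi k₁ hk₁ (g ^ j * k₂) (T.mul_mem hgj hk₂) d4 d3,
    h1 (g ^ i) hgi (g ^ j) hgj k₂ hk₂ (hcc i j) (OQS_symm d2), hgg i j, one_mul,
    h4 (g ^ i) hgi k₂ hk₂ (OQS_symm d2), h1 k₁ hk₁ (g ^ j) hgj k₂ hk₂ d1 c3]

theorem OQS_nor {G : Type} [Group G] {D : Subgroup G} {t c : G} (ht : t ∈ nz D) (hc : c ∈ cz D) :
    t * c * t⁻¹ ∈ cz D := by
  rw [Subgroup.mem_centralizer_iff] at hc ⊢
  intro d hd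
  have h1 : t⁻¹ * d * t ∈ D := by
    have h2 := (Subgroup.mem_normalizer_iff.1 ((nz D).inv_mem ht) d).1 hd
    rwa [inv_inv] at h2
  have h3 := hc _ h1
  calc d * (t * c * t⁻¹) = t * ((t⁻¹ * d * t) * c) * t⁻¹ := by group
    _ = t * (c * (t⁻¹ * d * t)) * t⁻¹ := by rw [h3]
    _ = t * c * t⁻¹ * d := by group

theorem OQS (hMLE : MLE_stmt) (hCOP : COP_stmt) (hNYT : NYT_stmt) (hOM1 : OM1_stmt) (hOM3 : OM3_stmt) (hOMP : OMP_stmt) (hHIB : HIB_stmt) : OQS_stmt := by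
  intro p M hS hp2 G _ _ D x θ χ hL Q Q' hQQ' hQ'D hRP g hg k₁ hk₁ k₂ hk₂ c1 c2 c3 hgn hk₁n hk₂n t1 t2 i j
  have hQD : Q ≤ D := hQQ'.trans hQ'D
  have hone : (1 : G) ∈ TT M D θ := (TT M D θ).one_mem
  have hRP' : RP M D θ Q' := (hNYT p M hS G D x θ χ hL Q hQD 1 hone (nz Q).one_mem).2.2 hRP Q' hQ'D hQQ'
  have hTn : ∀ t ∈ TT M D θ, t ∈ nz D := fun t ht => (mem_TT.1 ht).1
  -- the properties of `om` for one subgroup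
  have facts : ∀ R ≤ D, RP M D θ R → ∀ a ∈ TT M D θ, a ∈ nz R → HI M (cz R) (eBl M (cz R) θ) ∧
      NY (cz R) (eBl M (cz R) θ) a ∧ om p (cz R) (eBl M (cz R) θ) a 1 = 1 := fun R hR hRR a ha haR =>
    ⟨(hHIB p M hS G (cz R) θ).1, (hNYT p M hS G D x θ χ hL R hR a ha haR).1,
      hOM1 p M hS hp2 G D x θ χ hL R hR hRR a ha haR⟩
  let T' : Subgroup G := TT M D θ ⊓ (nz Q ⊓ nz Q')
  have hT'T : ∀ t ∈ T', t ∈ TT M D θ := fun t ht => (Subgroup.mem_inf.1 ht).1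
  have hT'Q : ∀ t ∈ T', t ∈ nz Q := fun t ht => (Subgroup.mem_inf.1 (Subgroup.mem_inf.1 ht).2).1
  have hT'Q' : ∀ t ∈ T', t ∈ nz Q' := fun t ht => (Subgroup.mem_inf.1 (Subgroup.mem_inf.1 ht).2).2
  have hn : ∀ t ∈ T', ∀ c ∈ cz D, t * c * t⁻¹ ∈ cz D := fun t ht c hc => OQS_nor (hTn t (hT'T t ht)) hc
  have hconj : ∀ R ≤ D, ∀ a ∈ T', ∀ y : G, a * y * a⁻¹ * y⁻¹ ∈ cz D → a⁻¹ * (y * a * y⁻¹) ∈ cz R := by
    intro R hR a ha y h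
    have e : a⁻¹ * (y * a * y⁻¹) = a⁻¹ * (a * y * a⁻¹ * y⁻¹)⁻¹ * a⁻¹⁻¹ := by group
    rw [e]
    exact cz_mono hR (hn _ (T'.inv_mem ha) _ ((cz D).inv_mem h))
  have habs : ∀ R ≤ D, RP M D θ R → (∀ t ∈ T', t ∈ nz R) →
      om p (cz R) (eBl M (cz R) θ) (g ^ i * k₁) (g ^ j * k₂) =
        (starRingEnd ℂ) (om p (cz R) (eBl M (cz R) θ) k₂ (g ^ i)) *
          (om p (cz R) (eBl M (cz R) θ) k₁ (g ^ j) * om p (cz R) (eBl M (cz R) θ) k₁ k₂) := by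
    intro R hR hRR hTR
    refine OQS_abs (cz D) T' hn (om p (cz R) (eBl M (cz R) θ)) ?_ ?_ ?_ ?_ g k₁ k₂
      (Subgroup.mem_inf.2 ⟨hg, Subgroup.mem_inf.2 hgn⟩) (Subgroup.mem_inf.2 ⟨hk₁, Subgroup.mem_inf.2 hk₁n⟩)
      (Subgroup.mem_inf.2 ⟨hk₂, Subgroup.mem_inf.2 hk₂n⟩) c1 c2 c3 i j
    · intro a ha y hy y' hy' e1 e2
      obtain ⟨f1, f2, f3⟩ := facts R hR hRR a (hT'T a ha) (hTR a ha)
      exact (hOMP p M hS G (cz R) (eBl M (cz R) θ) a f1 f2 f3).1 y y'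
        (facts R hR hRR y (hT'T y hy) (hTR y hy)).2.1 (facts R hR hRR y' (hT'T y' hy') (hTR y' hy')).2.1
        (hconj R hR a ha y e1) (hconj R hR a ha y' e2)
    · intro a ha
      obtain ⟨f1, f2, f3⟩ := facts R hR hRR a (hT'T a ha) (hTR a ha)
      exact (hOMP p M hS G (cz R) (eBl M (cz R) θ) a f1 f2 f3).2.1
    · intro a ha
      exact (facts R hR hRR a (hT'T a ha) (hTR a ha)).2.2
    · intro a ha y hy e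
      exact hOM3 p M hS G D x θ χ hL R hR hRR a (hT'T a ha) (hTR a ha) y (hT'T y hy) (hTR y hy) e
  -- the comparison
  have hpow : ∀ k ∈ TT M D θ, k ^ (cz D).relIndex (TT M D θ) ∈ cz D := by
    intro k hk
    have hN : ((cz D).subgroupOf (TT M D θ)).Normal := by
      refine ⟨fun n hn' t => ?_⟩
      rw [Subgroup.mem_subgroupOf] at hn' ⊢
      exact OQS_nor (hTn t t.2) hn'
    have h1 := Subgroup.pow_index_mem ((cz D).subgroupOf (TT M D θ)) (⟨k, hk⟩ : TT M D θ)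
    rw [Subgroup.mem_subgroupOf] at h1
    exact h1
  have claim : ∀ k ∈ T', (∀ q ∈ Q', k * q * k⁻¹ * q⁻¹ ∈ Q) → ∀ y ∈ T', k * y * k⁻¹ * y⁻¹ ∈ cz D →
      om p (cz Q) (eBl M (cz Q) θ) k y = om p (cz Q') (eBl M (cz Q') θ) k y := by
    intro k hk ht y hy e
    have h1 : Q' ≤ Q ⊔ Cz D k := hCOP p hS.pr G D Q Q' hL.rt.dfa.pgrp hL.rt.com hQQ' hQ'D k (hTn k (hT'T k hk))
      (hT'Q k hk) _ hL.bet (hpow k (hT'T k hk)) ht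
    have h2 : Q' ⊔ Cz D k = Q ⊔ Cz D k :=
      le_antisymm (sup_le h1 le_sup_right) (sup_le (hQQ'.trans le_sup_left) le_sup_right)
    have h3 := hMLE p M hS hp2 G D x θ χ hL Q hQD hRP k (hT'T k hk) (hT'Q k hk) y (hT'T y hy) (hT'Q y hy) e
    have h4 := hMLE p M hS hp2 G D x θ χ hL Q' hQ'D hRP' k (hT'T k hk) (hT'Q' k hk) y (hT'T y hy) (hT'Q' y hy) e
    rw [h2] at h4
    exact h3.trans h4.symm
  have hg' : g ∈ T' := Subgroup.mem_inf.2 ⟨hg, Subgroup.mem_inf.2 hgn⟩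
  have hk₁' : k₁ ∈ T' := Subgroup.mem_inf.2 ⟨hk₁, Subgroup.mem_inf.2 hk₁n⟩
  have hk₂' : k₂ ∈ T' := Subgroup.mem_inf.2 ⟨hk₂, Subgroup.mem_inf.2 hk₂n⟩
  rw [habs Q hQD hRP hT'Q, habs Q' hQ'D hRP' hT'Q',
    claim k₂ hk₂' t2 (g ^ i) (T'.zpow_mem hg' i) (OQS_zpow hn hk₂' hg' (OQS_symm c2) i),
    claim k₁ hk₁' t1 (g ^ j) (T'.zpow_mem hg' j) (OQS_zpow hn hk₁' hg' (OQS_symm c1) j),
    claim k₁ hk₁' t1 k₂ hk₂' c3]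

end Pool.Agent.LE
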