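import Pool.Agent.helper12.LE.SpecB
import Pool.Agent.helper73.FI4.IAP

set_option autoImplicit false

namespace Pool.Agent.LE

open Pool.Agent.helper58.DC Pool.Agent.DI Pool.Agent.GR Pool.Agent.OB Pool.Agent.DR Pool.Agent.FI Pool.Agent.FI3 Pool.Agent.FI4 Pool.Agent.FI4C Pool.Agent.FI4B

theorem KUT_m {p : ℕ} {M : Ideal (integralClosure ℤ ℂ)} (hS : Setup p M) (hHTD : HTD_stmt) (hHTZ4 : HTZ4_stmt) {G : Type} [Group G] [Finite G]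
    {D : Subgroup G} {x : G} {θ χ : G → ℂ} (hL : LoA p M D x θ χ) {P : Subgroup G} (hP : P ≤ D) {u : G} (hu : u ∈ D)
    (hgood : Good p M D (Cz (cz P) u) θ) {ψ0 : G → ℂ} (hψ0 : ψ0 ∈ Bl M (Cz (cz P) u) θ) :
    ∃ n m : ℕ, ψ0 1 = n ∧ Nat.card D * n * m = Nat.card (Cz (cz P) u) ∧ ¬ p ∣ m := by
  have hpf : Fact p.Prime := ⟨hS.pr⟩
  obtain ⟨n, m, hn, hnm⟩ := hHTD p M hS G D (Cz (cz P) u) θ hgood ψ0 hψ0
  refine ⟨n, m, hn, hnm, ?_⟩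
  have hP' : P ⊔ Subgroup.zpowers u ≤ D := sup_le hP ((Subgroup.zpowers_le).2 hu)
  have hg' : Good p M D (cz (P ⊔ Subgroup.zpowers u)) θ := by
    rw [cz_sup_zpowers]
    exact hgood
  have hψ0' : ψ0 ∈ Bl M (cz (P ⊔ Subgroup.zpowers u)) θ := by
    rw [cz_sup_zpowers]
    exact hψ0
  obtain ⟨a, ha⟩ : ∃ a, Nat.card D = p ^ a := IsPGroup.iff_card.1 hL.rt.dfa.pgrp
  have hdef := hHTZ4 p M hS G D x θ χ hL _ hP' hg' ψ0 hψ0' a ha
  rw [cz_sup_zpowers] at hdef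
  obtain ⟨n', hn', hv⟩ := hdef
  have hnn : n' = n := by
    have h1 : (n' : ℂ) = n := hn'.symm.trans hn
    exact_mod_cast h1
  rw [hnn] at hv
  have hK0 : Nat.card (Cz (cz P) u) ≠ 0 := Nat.card_pos.ne'
  have hm0 : m ≠ 0 := by
    rintro rfl
    rw [mul_zero] at hnm
    exact hK0 hnm.symm
  have hn0 : n ≠ 0 := by
    rintro rfl
    rw [mul_zero, zero_mul] at hnm
    exact hK0 hnm.symm
  have hD0 : Nat.card D ≠ 0 := Nat.card_pos.ne'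
  rw [← hnm, padicValNat.mul (mul_ne_zero hD0 hn0) hm0, padicValNat.mul hD0 hn0, ha, padicValNat.prime_pow] at hv
  simp only [Nat.cast_add] at hv
  intro hdvd
  have h1 := one_le_padicValNat_of_dvd hm0 hdvd
  omega

theorem KUT_core (hUNV : UNV_stmt) (hHTD : HTD_stmt) (hTRW : TRW_stmt) (hQNW : QNW_stmt) (hQID : QID_stmt) (hRR1 : RR1_stmt) (hHTZ4 : HTZ4_stmt)
    (p : ℕ) (M : Ideal (integralClosure ℤ ℂ)) (hS : Setup p M) (G : Type) [Group G] [Finite G]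
    (D : Subgroup G) (x : G) (θ χ : G → ℂ) (hL : LoA p M D x θ χ) (P : Subgroup G) (hP : P ≤ D) (u : G) (hu : u ∈ D)
    (hgood : Good p M D (Cz (cz P) u) θ) (ψ : G → ℂ) (hψ : ψ ∈ Bl M (cz P) θ) :
    IntAt M ((Nat.card (cz P) : ℂ) / Nat.card D * (dd M (Cz (cz P) u) θ ψ u / ψ 1)) ∧
    ¬ InM M ((Nat.card (cz P) : ℂ) / Nat.card D * (dd M (Cz (cz P) u) θ ψ u / ψ 1)) := by
  have hRt := hL.rt
  obtain ⟨i, hi⟩ := hQID p M hS G D x θ χ hRt P hP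
  obtain ⟨w, hwC, hwr, hHT⟩ := hUNV p M hS G D x θ χ hRt
  obtain ⟨j, hj1, hj2, hj3, hj4, hj5⟩ := hi.loc (Cz (cz P) u) ⟨u, hu, rfl⟩
  have hCL : cz D ≤ cz P := Q1_C_le hP
  have hCK : cz D ≤ Cz (cz P) u := Q1_C_Cz hP hu
  have hDC : D ≤ cz D := le_cz_of_com hRt.com
  have hDL : D ≤ cz P := Q1_D_le hRt hP
  have hinvC : Inv (cz D) i := fun s hs y =>
    hi.inv s (Subgroup.mem_inf.2 ⟨cz_le_TT hs, hCL hs⟩) y
  obtain ⟨hA, hA2⟩ := hHT (cz P) hCL i hi.idm hinvC hi.cen ψ hψ u hu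
  have hpel : PEl p u := by
    obtain ⟨k, hk⟩ := hRt.dfa.pgrp ⟨u, hu⟩
    refine ⟨k, ?_⟩
    have := congrArg (Subtype.val) hk
    simpa using this
  have hcomm : Commute u w := by
    have h := hwC
    rw [Subgroup.mem_centralizer_iff] at h
    exact h u hu
  have hjL : Idm M (cz P) j :=
    ⟨fun y hy => hj1.sup y (fun h => hy (mem_Cz.1 h).1), hj1.int, hj1.idem⟩
  have huwC : u * w ∈ cz D := (cz D).mul_mem (hDC hu) hwC
  have h2 : ev ψ i (u * w) = ev ψ j (u * w) :=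
    hRR1 p M hS G (cz P) u (hDL hu) w (hCL hwC) hpel hwr hcomm i j hi.idm hjL
      (fun x => hinvC (u * w) huwC x) (fun x => hj2 (u * w) huwC x) hj5 ψ hψ.1
  have hne : (Bl M (Cz (cz P) u) θ).Nonempty := by
    rw [Set.nonempty_iff_ne_empty]
    intro h
    have h3 := hgood.card
    rw [h, Set.ncard_empty] at h3
    exact Nat.card_pos.ne h3
  obtain ⟨ψ0, hψ0⟩ := hne
  have h3 : ∀ ψ₁ ∈ Bl M (Cz (cz P) u) θ, ev ψ₁ j w = ev ψ0 j w := by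
    intro ψ₁ h
    exact hTRW p M hS G (Cz (cz P) u) j hj1 w (hCK hwC) hwr (fun x => hj2 w hwC x) ψ₁ ψ0
      (fun s hs x => IrrOn_conj h.1 hs x) (fun s hs x => IrrOn_conj hψ0.1 hs x)
      (fun v hv hvr => hgood.reg ψ₁ h ψ0 hψ0 v hv hvr)
  have h4 := hQNW G M (cz P) θ u (hDL hu) w (hCK hwC) j hj1.sup hj4 (ev ψ0 j w) h3 ψ hψ.1
  rw [h2, h4] at hA hA2
  -- the group `K`
  have hjcen : ∀ y ∈ cz D, InM M (j y - eBl M (cz D) θ y) := by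
    intro y hy
    have e1 := hi.cen y hy
    have e2 := hj5 y (hCK hy)
    have e3 := e1.add hS e2.neg
    have e4 : i y - eBl M (cz D) θ y + -(i y - j y) = j y - eBl M (cz D) θ y := by ring
    rwa [e4] at e3
  obtain ⟨hB1, hB2⟩ := hHT (Cz (cz P) u) hCK j hj1 hj2 hjcen ψ0 hψ0 1 D.one_mem
  rw [one_mul] at hB1 hB2
  obtain ⟨n, m, hn, hnm, hpm⟩ := KUT_m hS hHTD hHTZ4 hL hP hu hgood hψ0
  have hn0 : (n : ℂ) ≠ 0 := by
    rw [← hn]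
    exact IrrOn_ne hψ0.1
  have hD0 : ((Nat.card D : ℕ) : ℂ) ≠ 0 := by
    have : Nat.card D ≠ 0 := Nat.card_pos.ne'
    exact_mod_cast this
  have hBe : (Nat.card (Cz (cz P) u) : ℂ) / Nat.card D * (ev ψ0 j w / ψ0 1) = m * ev ψ0 j w := by
    rw [hn, ← hnm]
    push_cast
    field_simp
  rw [hBe] at hB1 hB2
  have hB0 : (m : ℂ) * ev ψ0 j w ≠ 0 := by
    intro h
    apply hB2
    rw [h]
    exact InM.zero hS
  have hm0 : (m : ℂ) ≠ 0 := left_ne_zero_of_mul hB0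
  have hc0 : ev ψ0 j w ≠ 0 := right_ne_zero_of_mul hB0
  have hψ1 : ψ 1 ≠ 0 := IrrOn_ne hψ.1
  have hX : (Nat.card (cz P) : ℂ) / Nat.card D * (dd M (Cz (cz P) u) θ ψ u / ψ 1) =
      (m : ℂ) * ((Nat.card (cz P) : ℂ) / Nat.card D * (ev ψ0 j w * dd M (Cz (cz P) u) θ ψ u / ψ 1)) *
        ((m : ℂ) * ev ψ0 j w)⁻¹ := by
    field_simp
  refine ⟨?_, ?_⟩
  · rw [hX]
    exact IntAt.mul hS (IntAt.mul hS (IntAt.natCast hS m) hA) (IntAt.inv hS hB1 hB2)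
  · intro hcon
    have hX2 : (Nat.card (cz P) : ℂ) / Nat.card D * (dd M (Cz (cz P) u) θ ψ u / ψ 1) * ((m : ℂ) * ev ψ0 j w) =
        (m : ℂ) * ((Nat.card (cz P) : ℂ) / Nat.card D * (ev ψ0 j w * dd M (Cz (cz P) u) θ ψ u / ψ 1)) := by
      field_simp
    have h5 := InM.mul_right hS hcon hB1
    rw [hX2] at h5
    rcases InM.or hS (IntAt.natCast hS m) hA h5 with h6 | h6
    · exact hpm ((InM.natCast hS m).1 h6)
    · exact hA2 h6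

theorem KUT (hUNV : UNV_stmt) (hHTD : HTD_stmt) (hTRW : TRW_stmt) (hQNW : QNW_stmt) (hQID : QID_stmt) (hRR1 : RR1_stmt) (hHTZ4 : HTZ4_stmt) : KUT_stmt := by
  intro p M hS G _ _ D x θ χ hL u hu _ hg ψ hψ d k hd hd0 hv
  have hpf : Fact p.Prime := ⟨hS.pr⟩
  have hψ' : ψ ∈ Bl M (cz (⊥ : Subgroup G)) θ := by
    rw [IAP_cz_bot]
    exact hψ
  obtain ⟨h1, h2⟩ := KUT_core hUNV hHTD hTRW hQNW hQID hRR1 hHTZ4 p M hS G D x θ χ hL ⊥ bot_le u hu hg ψ hψ'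
  rw [IAP_cz_bot, Subgroup.card_top] at h1 h2
  have hG0 : Nat.card G ≠ 0 := Nat.card_pos.ne'
  have hD0 : Nat.card D ≠ 0 := Nat.card_pos.ne'
  have hp0 : p ^ k ≠ 0 := pow_ne_zero _ hS.pr.ne_zero
  have a1 : (Nat.card G : ℂ) ≠ 0 := by exact_mod_cast hG0
  have a2 : (Nat.card D : ℂ) ≠ 0 := by exact_mod_cast hD0
  have a3 : (p : ℂ) ^ k ≠ 0 := pow_ne_zero _ hS.p_ne
  have a4 : (d : ℂ) ≠ 0 := by exact_mod_cast hd0
  have hv1 : padicValNat p (Nat.card D * d) = padicValNat p (Nat.card G * p ^ k) := by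
    rw [padicValNat.mul hD0 hd0, padicValNat.mul hG0 hp0, padicValNat.prime_pow]
    exact hv.symm
  have h3 : IntAt M (((Nat.card D * d : ℕ) : ℂ) / ((Nat.card G * p ^ k : ℕ) : ℂ)) :=
    IAP_int hS (mul_ne_zero hD0 hd0) (mul_ne_zero hG0 hp0) hv1.ge
  have h4 : IntAt M (((Nat.card G * p ^ k : ℕ) : ℂ) / ((Nat.card D * d : ℕ) : ℂ)) :=
    IAP_int hS (mul_ne_zero hG0 hp0) (mul_ne_zero hD0 hd0) hv1.le
  have e : (Nat.card G : ℂ) / Nat.card D * (dd M (Cz (⊤ : Subgroup G) u) θ ψ u / ψ 1) *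
      (((Nat.card D * d : ℕ) : ℂ) / ((Nat.card G * p ^ k : ℕ) : ℂ)) = dd M (Cz (⊤ : Subgroup G) u) θ ψ u / (p : ℂ) ^ k := by
    rw [hd]
    push_cast
    field_simp
  have e2 : dd M (Cz (⊤ : Subgroup G) u) θ ψ u / (p : ℂ) ^ k * (((Nat.card G * p ^ k : ℕ) : ℂ) / ((Nat.card D * d : ℕ) : ℂ)) =
      (Nat.card G : ℂ) / Nat.card D * (dd M (Cz (⊤ : Subgroup G) u) θ ψ u / ψ 1) := by
    rw [hd]
    push_cast
    field_simp
  refine ⟨?_, ?_⟩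
  · rw [← e]
    exact IntAt.mul hS h1 h3
  · intro hcon
    apply h2
    rw [← e2]
    exact InM.mul_right hS hcon h4

end Pool.Agent.LE
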