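import Pool.Agent.helper83.LE.SpecB

set_option autoImplicit false

namespace Pool.Agent.LE

open Pool.Agent.helper58.DC Pool.Agent.DI Pool.Agent.GR Pool.Agent.OB Pool.Agent.DR Pool.Agent.FI Pool.Agent.FI3 Pool.Agent.FI4 Pool.Agent.FI4C

theorem CP2 (hSTC : STC_stmt) (hB2 : B2_stmt) : CP2_stmt := by
  intro p M hS G _ _ θ m hm y hy
  have : Fact p.Prime := ⟨hS.pr⟩
  have hym : y ^ m = y := by
    rcases eq_or_ne y 1 with h | h
    · rw [h, one_pow]
    · have hord : orderOf y = p := orderOf_eq_prime hy h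
      have hdvd : p ∣ Nat.card G := by rw [← hord]; exact orderOf_dvd_natCard y
      have h1 : m ≡ 1 [MOD orderOf y] := by rw [hord]; exact hm.one hdvd
      have h2 := pow_eq_pow_iff_modEq.2 h1
      rwa [pow_one] at h2
  rw [hym]
  have hfin : (Bl M (⊤ : Subgroup G) θ).Finite := (hB2 G ⊤).1.subset fun ψ h => h.1
  have hV : ({v : G | v ∈ Cz (⊤ : Subgroup G) y ∧ PReg p v}).Finite := Set.toFinite _
  have key : ∀ g : G, Sf (Bl M (⊤ : Subgroup G) θ) g g = ((∑ ψ ∈ hfin.toFinset, ‖ψ g‖ ^ 2 : ℝ) : ℂ) := by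
    intro g
    unfold Sf
    rw [finsum_mem_eq_finite_toFinset_sum _ hfin, Complex.ofReal_sum]
    refine Finset.sum_congr rfl fun ψ hψ => ?_
    have h1 : ψ ∈ Bl M (⊤ : Subgroup G) θ := hfin.mem_toFinset.1 hψ
    rw [hSTC G ⊤ ψ h1.1 g, Complex.mul_conj, Complex.normSq_eq_norm_sq]
  refine ⟨∑ v ∈ hV.toFinset, ∑ ψ ∈ hfin.toFinset, ‖ψ (y * v)‖ ^ 2, ?_, ?_⟩
  · exact Finset.sum_nonneg fun v _ => Finset.sum_nonneg fun ψ _ => by positivity
  · rw [finsum_mem_eq_finite_toFinset_sum _ hV, Complex.ofReal_sum]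
    exact Finset.sum_congr rfl fun v _ => key _

end Pool.Agent.LE
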